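import Pool.Agent.Helper16.AZ.Stmts

/-! Module XSW (MP_7a8f48_an): the families span a dense subspace of the functions on the phase
space of a skew product. -/

open Finset Filter MeasureTheory Topology
open scoped ComplexConjugate InnerProductSpace

namespace Pool.Agent.Helper16.AZ

open Pool.Agent.Helper16.MD (MS PB Am RW Rich)
open UnitAddTorus (mFourier)

theorem xsw_mF_add {r : ℕ} (X : Fin r → ℤ) (x y : T r) :
    mFourier X (x + y) = mFourier X x * mFourier X y := by
  simp only [UnitAddTorus.mFourier, ContinuousMap.coe_mk, ← Finset.prod_mul_distrib]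
  refine Finset.prod_congr rfl fun i _ => ?_
  rw [Pi.add_apply]
  simp only [fourier_apply, smul_add, AddCircle.toCircle_add, Circle.coe_mul]

/-- the skew product is continuous -/
theorem xsw_cont {r d : ℕ} (β : T r) (Φ : C(T r, Matrix.unitaryGroup (Fin d) ℂ)) :
    Continuous (SK β Φ) := by
  unfold SK
  exact (continuous_fst.add continuous_const).prodMk
    ((Φ.continuous.comp continuous_fst).mul continuous_snd)

theorem xsw_const_LMM {r : ℕ} {ι : Type} (M : Matrix ι ι ℂ) : LMM (r := r) (fun _ => M) := by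
  intro i j ε hε
  refine ⟨1 / 2, by norm_num, by norm_num, fun t ht ht' θ θ' _ => ?_⟩
  rw [sub_self, norm_zero]
  positivity

theorem xsw_val (d : ℕ) : Continuous
    fun g : Matrix.unitaryGroup (Fin d) ℂ => (g : Matrix (Fin d) (Fin d) ℂ) :=
  continuous_subtype_val

theorem xsw_ent (r d : ℕ) (i j : Fin d) : Continuous
    fun y : XX r d => (y.2 : Matrix (Fin d) (Fin d) ℂ) i j :=
  ((xsw_val d).comp continuous_snd).matrix_elem i j

/-- the entries -/
def xswE (r d : ℕ) (i j : Fin d) : C(XX r d, ℂ) :=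
  ⟨fun y => (y.2 : Matrix (Fin d) (Fin d) ℂ) i j, xsw_ent r d i j⟩

theorem xswE_apply (r d : ℕ) (i j : Fin d) (y : XX r d) :
    xswE r d i j y = (y.2 : Matrix (Fin d) (Fin d) ℂ) i j := rfl

theorem st_XSW (hXPR : ST_XPR) : ST_XSW := by
  intro r d β Φ hΦ
  let α : C(XX r d, ℂ) →⋆ₐ[ℂ] C(XX r d, ℂ) :=
    ContinuousMap.compStarAlgHom' ℂ ℂ ⟨SK β Φ, xsw_cont β Φ⟩
  let π : C(T r, ℂ) →⋆ₐ[ℂ] C(XX r d, ℂ) :=
    ContinuousMap.compStarAlgHom' ℂ ℂ ⟨Prod.fst, continuous_fst⟩
  have hα : ∀ (F : C(XX r d, ℂ)) (y : XX r d), α F y = F (SK β Φ y) := fun F y => rfl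
  have hπ : ∀ (F : C(T r, ℂ)) (y : XX r d), π F y = F y.1 := fun F y => rfl
  refine ⟨α, π, hα, fun f => by ext y; rfl, ?_⟩
  set S : Set C(XX r d, ℂ) := {x : C(XX r d, ℂ) | ∃ (e : ℕ)
    (Ψ : C(T r, Matrix (Fin e) (Fin e) ℂ)) (v : Fin e → C(XX r d, ℂ)),
    Fam α π Ψ v ∧ ∃ i, v i = x} with hS
  -- characters
  have hchar : ∀ X : Fin r → ℤ, π (mFourier X) ∈ S := by
    intro X
    refine ⟨1, ContinuousMap.const _ (Matrix.of fun _ _ => mFourier X β), fun _ => π (mFourier X),
      ⟨?_, xsw_const_LMM _, ?_⟩, 0, rfl⟩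
    · intro θ
      rw [Matrix.mem_unitaryGroup_iff]
      ext i j
      have hij : i = j := Subsingleton.elim _ _
      subst hij
      simp only [Matrix.mul_apply, Finset.univ_unique, Finset.sum_singleton, Matrix.star_apply,
        ContinuousMap.const_apply, Matrix.of_apply, Matrix.one_apply_eq]
      have h1 : mFourier X β * star (mFourier X β) = mFourier X β * mFourier (-X) β := by
        rw [UnitAddTorus.mFourier_neg]
        rfl
      rw [h1, ← UnitAddTorus.mFourier_add, add_neg_cancel, UnitAddTorus.mFourier_zero]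
      rfl
    · intro i
      ext y
      rw [hα]
      simp only [Finset.univ_unique, Finset.sum_singleton, ContinuousMap.mul_apply, hπ]
      show mFourier X (y.1 + β) = mFourier X β * mFourier X y.1
      rw [xsw_mF_add, mul_comm]
  -- entries
  have hent : ∀ i j : Fin d, xswE r d i j ∈ S := by
    intro i j
    refine ⟨d, ⟨fun θ => (Φ θ : Matrix (Fin d) (Fin d) ℂ), (xsw_val d).comp Φ.continuous⟩,
      fun i => xswE r d i j, ⟨fun θ => (Φ θ).2, hΦ, ?_⟩, i, rfl⟩
    intro i
    ext y
    rw [hα, ContinuousMap.sum_apply]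
    show ((Φ y.1 : Matrix (Fin d) (Fin d) ℂ) * (y.2 : Matrix (Fin d) (Fin d) ℂ)) i j = _
    rw [Matrix.mul_apply]
    rfl
  have hone : (1 : C(XX r d, ℂ)) ∈ S := by
    have h := hchar 0
    rw [UnitAddTorus.mFourier_zero, map_one] at h
    exact h
  have hmul : ∀ x ∈ S, ∀ y ∈ S, x * y ∈ S := by
    rintro x ⟨e, Ψ, v, hv, i, rfl⟩ y ⟨e', Ψ', v', hv', i', rfl⟩
    exact (hXPR C(XX r d, ℂ) r α π e e' Ψ Ψ' v v' hv hv').1 i i'
  have hstar : ∀ x ∈ S, star x ∈ S := by
    rintro x ⟨e, Ψ, v, hv, i, rfl⟩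
    exact (hXPR C(XX r d, ℂ) r α π e e Ψ Ψ v v hv hv).2 i
  have hspan : ∀ x ∈ Submodule.span ℂ S, star x ∈ Submodule.span ℂ S := by
    intro x hx
    induction hx using Submodule.span_induction with
    | mem x h => exact Submodule.subset_span (hstar x h)
    | zero => rw [star_zero]; exact Submodule.zero_mem _
    | add x y _ _ hx hy => rw [star_add]; exact Submodule.add_mem _ hx hy
    | smul c x _ hx => rw [star_smul]; exact Submodule.smul_mem _ _ hx
  -- the star algebra generated by `S` is the span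
  have hadj : ∀ x ∈ StarAlgebra.adjoin ℂ S, x ∈ Submodule.span ℂ S := by
    intro x hx
    induction hx using StarAlgebra.adjoin_induction with
    | mem x h => exact Submodule.subset_span h
    | algebraMap c =>
      rw [Algebra.algebraMap_eq_smul_one]
      exact Submodule.smul_mem _ _ (Submodule.subset_span hone)
    | add x y _ _ hx hy => exact Submodule.add_mem _ hx hy
    | mul x y _ _ hx hy =>
      have h1 : x * y ∈ Submodule.span ℂ S * Submodule.span ℂ S := Submodule.mul_mem_mul hx hy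
      rw [Submodule.span_mul_span] at h1
      refine Submodule.span_mono ?_ h1
      rintro z ⟨a, ha, b, hb, rfl⟩
      exact hmul a ha b hb
    | star x _ hx => exact hspan x hx
  have hsep : (StarAlgebra.adjoin ℂ S).SeparatesPoints := by
    intro x y hxy
    by_cases h1 : x.1 = y.1
    · have h2 : x.2 ≠ y.2 := fun h => hxy (Prod.ext h1 h)
      have h3 : (x.2 : Matrix (Fin d) (Fin d) ℂ) ≠ (y.2 : Matrix (Fin d) (Fin d) ℂ) :=
        fun h => h2 (Subtype.ext h)
      obtain ⟨i, hi⟩ : ∃ i, ∃ j, (x.2 : Matrix (Fin d) (Fin d) ℂ) i j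
          ≠ (y.2 : Matrix (Fin d) (Fin d) ℂ) i j := by
        by_contra hc
        push Not at hc
        exact h3 (Matrix.ext hc)
      obtain ⟨j, hij⟩ := hi
      exact ⟨_, ⟨_, StarAlgebra.subset_adjoin ℂ S (hent i j), rfl⟩, hij⟩
    · obtain ⟨i, hi⟩ : ∃ i, x.1 i ≠ y.1 i := by
        by_contra hc
        push Not at hc
        exact h1 (funext hc)
      refine ⟨_, ⟨_, StarAlgebra.subset_adjoin ℂ S (hchar (Pi.single i 1)), rfl⟩, ?_⟩
      show mFourier (Pi.single i 1) x.1 ≠ mFourier (Pi.single i 1) y.1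
      rw [UnitAddTorus.mFourier_single, UnitAddTorus.mFourier_single, fourier_one, fourier_one]
      intro h
      exact hi (AddCircle.injective_toCircle one_ne_zero (Subtype.ext h))
  have htop := ContinuousMap.starSubalgebra_topologicalClosure_eq_top_of_separatesPoints
    (StarAlgebra.adjoin ℂ S) hsep
  refine Set.eq_univ_of_univ_subset fun f _ => ?_
  have hf : f ∈ (StarAlgebra.adjoin ℂ S).topologicalClosure := by
    rw [htop]
    trivial
  have hf2 : f ∈ closure ((StarAlgebra.adjoin ℂ S : StarSubalgebra ℂ C(XX r d, ℂ)) :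
      Set C(XX r d, ℂ)) := hf
  exact closure_mono (fun x hx => hadj x hx) hf2

end Pool.Agent.Helper16.AZ
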